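import Pool.Agent.N936.TC.Stm

/-! Project TC (helper936), part TRANS: no invariant clopen set (helper250). -/

set_option autoImplicit false

namespace Pool.Agent.N250.TC.Trans

open Set Topology Pool.Agent.N936.TC

/-- `d` depends on the first `n` digits -/
def Dep (n : ℕ) (d : Q → Bool) : Prop := ∀ x y : Q, (∀ k < n, x k = y k) → d x = d y

/-- flip the digit `n` -/
def fl (n : ℕ) (x : Q) : Q := Function.update x n (!x n)

theorem fl_self (n : ℕ) (x : Q) : fl n x n = !x n := by
  unfold fl
  rw [Function.update_self]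

theorem fl_ne (n k : ℕ) (x : Q) (h : k ≠ n) : fl n x k = x k := by
  unfold fl
  rw [Function.update_of_ne h]

theorem dep_fl {n : ℕ} {d : Q → Bool} (hd : Dep (n + 1) d) (x y : Q) (h : ∀ k < n, x k = y k) :
    (d x = d y ∧ d (fl n x) = d (fl n y) ∧ x n = y n) ∨
      (d (fl n x) = d y ∧ d x = d (fl n y) ∧ x n = !y n) := by
  by_cases hn : x n = y n
  · left
    refine ⟨hd _ _ fun k hk => ?_, hd _ _ fun k hk => ?_, hn⟩
    · rcases Nat.lt_succ_iff_lt_or_eq.1 hk with h1 | h1
      · exact h k h1
      · rw [h1, hn]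
    · rcases Nat.lt_succ_iff_lt_or_eq.1 hk with h1 | h1
      · rw [fl_ne _ _ _ h1.ne, fl_ne _ _ _ h1.ne]
        exact h k h1
      · rw [h1, fl_self, fl_self, hn]
  · right
    have hn2 : x n = !y n := by
      cases hx : x n <;> cases hy : y n <;> simp_all
    refine ⟨hd _ _ fun k hk => ?_, hd _ _ fun k hk => ?_, hn2⟩
    · rcases Nat.lt_succ_iff_lt_or_eq.1 hk with h1 | h1
      · rw [fl_ne _ _ _ h1.ne]
        exact h k h1
      · rw [h1, fl_self, hn2, Bool.not_not]
    · rcases Nat.lt_succ_iff_lt_or_eq.1 hk with h1 | h1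
      · rw [fl_ne _ _ _ h1.ne]
        exact h k h1
      · rw [h1, fl_self, hn2]

/-- the value of a bit in `ZMod 2` -/
def b2 (b : Bool) : ZMod 2 := if b then 1 else 0

theorem b2_xor (a b : Bool) : b2 (xor a b) = b2 a + b2 b := by
  cases a <;> cases b <;> decide

/-- extension of a word by `false` -/
def ext {n : ℕ} (w : Fin n → Bool) : Q := fun k => if h : k < n then w ⟨k, h⟩ else false

theorem ext_lt {n : ℕ} (w : Fin n → Bool) (k : ℕ) (h : k < n) : ext w k = w ⟨k, h⟩ := dif_pos h

section

variable (typ : ℕ → Bool) (wd : ℕ → ℕ → Bool)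

theorem sgf_congr (i : Bool) (x y : Q) (k : ℕ) (h : ∀ j ≤ k, x j = y j) :
    sgf typ wd i x k = sgf typ wd i y k := by
  have e : (∀ j < k, x j = wd k j) ↔ ∀ j < k, y j = wd k j :=
    ⟨fun h1 j hj => by rw [← h j hj.le]; exact h1 j hj, fun h1 j hj => by
      rw [h j hj.le]; exact h1 j hj⟩
  unfold sgf
  simp only [e, h k le_rfl]

theorem sgf_fl (i : Bool) (x : Q) (n : ℕ) (k : ℕ) (hk : k < n + 1) :
    fl n (sgf typ wd i x) k = sgf typ wd i (fl n x) k := by
  rcases Nat.lt_succ_iff_lt_or_eq.1 hk with h1 | h1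
  · rw [fl_ne _ _ _ h1.ne]
    refine sgf_congr typ wd i x (fl n x) k fun j hj => ?_
    rw [fl_ne _ _ _ (by omega)]
  · subst h1
    rw [fl_self]
    have e : (∀ j < k, fl k x j = wd k j) ↔ ∀ j < k, x j = wd k j :=
      ⟨fun h1 j hj => by rw [← h1 j hj, fl_ne _ _ _ hj.ne], fun h1 j hj => by
        rw [fl_ne _ _ _ hj.ne]; exact h1 j hj⟩
    unfold sgf
    simp only [e, fl_self]
    split_ifs <;> rfl

theorem const (n : ℕ) : ∀ d : Q → Bool, Dep n d → (∀ i x, d (sgf typ wd i x) = d x) →
    ∀ x y, d x = d y := by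
  induction n with
  | zero => exact fun d hd _ x y => hd x y fun k hk => absurd hk (Nat.not_lt_zero k)
  | succ n ih =>
    intro d hd hinv
    obtain ⟨e, he⟩ : ∃ e : Q → Bool, e = fun x => xor (d x) (d (fl n x)) := ⟨_, rfl⟩
    have hde : Dep n e := by
      intro x y h
      rw [he]
      show xor (d x) (d (fl n x)) = xor (d y) (d (fl n y))
      rcases dep_fl hd x y h with ⟨h1, h2, _⟩ | ⟨h1, h2, _⟩
      · rw [h1, h2]
      · rw [h1, h2, Bool.xor_comm]
    have hie : ∀ i x, e (sgf typ wd i x) = e x := by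
      intro i x
      rw [he]
      show xor (d (sgf typ wd i x)) (d (fl n (sgf typ wd i x))) = xor (d x) (d (fl n x))
      rw [hinv, hd _ _ (sgf_fl typ wd i x n), hinv]
    have hc := ih e hde hie
    cases hb : e (fun _ => false)
    · -- the digit `n` does not matter
      have h1 : ∀ x, d (fl n x) = d x := by
        intro x
        have h2 : e x = false := by rw [hc x (fun _ => false), hb]
        rw [he] at h2
        have h3 : xor (d x) (d (fl n x)) = false := h2
        cases h4 : d x <;> cases h5 : d (fl n x) <;> simp_all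
      refine ih d (fun x y h => ?_) hinv
      rcases dep_fl hd x y h with ⟨h2, _, _⟩ | ⟨h2, _, _⟩
      · exact h2
      · rw [← h1 x, h2]
    · exfalso
      have h1 : ∀ x, d (fl n x) = !d x := by
        intro x
        have h2 : e x = true := by rw [hc x (fun _ => false), hb]
        rw [he] at h2
        have h3 : xor (d x) (d (fl n x)) = true := h2
        cases h4 : d x <;> cases h5 : d (fl n x) <;> simp_all
      obtain ⟨h, hh⟩ : ∃ h : Q → Bool, h = fun x => xor (d x) (x n) := ⟨_, rfl⟩
      have hdh : Dep n h := by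
        intro x y hxy
        rw [hh]
        show xor (d x) (x n) = xor (d y) (y n)
        rcases dep_fl hd x y hxy with ⟨h2, _, h3⟩ | ⟨h2, _, h3⟩
        · rw [h2, h3]
        · rw [← h2, h1, h3]
          cases d x <;> cases y n <;> rfl
      obtain ⟨s, hs⟩ : ∃ s : Q → Q, s = sgf typ wd (typ n) := ⟨_, rfl⟩
      obtain ⟨w0, hw0⟩ : ∃ w0 : Fin n → Bool, w0 = fun k : Fin n => wd n (k : ℕ) := ⟨_, rfl⟩
      have hstep : ∀ w : Fin n → Bool, h (s (ext w)) = xor (h (ext w)) (decide (w = w0)) := by
        intro w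
        have e1 : (∀ k < n, ext w k = wd n k) ↔ w = w0 := by
          rw [hw0]
          constructor
          · intro h2
            funext k
            rw [← ext_lt w k.1 k.2]
            exact h2 k.1 k.2
          · intro h2 k hk
            rw [ext_lt w k hk, h2]
        rw [hh]
        show xor (d (s (ext w))) ((s (ext w)) n) = xor (xor (d (ext w)) (ext w n)) (decide (w = w0))
        have e2 : (s (ext w)) n = xor (ext w n) (decide (w = w0)) := by
          rw [hs]
          unfold sgf
          simp only [e1, true_and]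
          by_cases h3 : w = w0
          · rw [if_pos h3, decide_eq_true h3, Bool.xor_true]
          · rw [if_neg h3, decide_eq_false h3, Bool.xor_false]
        rw [e2, hs, hinv, Bool.xor_assoc]
      obtain ⟨P, hP⟩ : ∃ P : (Fin n → Bool) → Fin n → Bool,
          P = fun (w : Fin n → Bool) (k : Fin n) => s (ext w) (k : ℕ) := ⟨_, rfl⟩
      have hinj : Function.Injective P := by
        intro w w' hww
        have key : ∀ k, ∀ hk : k < n, w ⟨k, hk⟩ = w' ⟨k, hk⟩ := by
          intro k
          induction k using Nat.strong_induction_on with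
          | _ k ihk =>
            intro hk
            have h2 : s (ext w) k = s (ext w') k := by
              have := congrFun hww ⟨k, hk⟩
              rw [hP] at this
              exact this
            have e1 : (∀ j < k, ext w j = wd k j) ↔ ∀ j < k, ext w' j = wd k j := by
              have e3 : ∀ j < k, ext w j = ext w' j := fun j hj => by
                rw [ext_lt w j (hj.trans hk), ext_lt w' j (hj.trans hk)]
                exact ihk j hj (hj.trans hk)
              exact ⟨fun h3 j hj => by rw [← e3 j hj]; exact h3 j hj, fun h3 j hj => by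
                rw [e3 j hj]; exact h3 j hj⟩
            rw [hs] at h2
            unfold sgf at h2
            simp only [e1, ext_lt w k hk, ext_lt w' k hk] at h2
            split_ifs at h2
            · exact Bool.not_inj h2
            · exact h2
        funext k
        exact key k.1 k.2
      have hbij : Function.Bijective P := Finite.injective_iff_bijective.1 hinj
      have hPv : ∀ w, h (ext (P w)) = h (s (ext w)) := by
        intro w
        refine hdh _ _ fun k hk => ?_
        rw [ext_lt _ k hk, hP]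
      have h5 : ∑ w, b2 (h (ext (P w))) = ∑ w, b2 (h (ext w)) :=
        hbij.sum_comp fun w => b2 (h (ext w))
      simp_rw [hPv, hstep, b2_xor] at h5
      rw [Finset.sum_add_distrib] at h5
      have h6 : ∑ w : Fin n → Bool, b2 (decide (w = w0)) = 1 := by
        unfold b2
        simp
      rw [h6] at h5
      have h7 : (1 : ZMod 2) = 0 := by
        have := add_eq_left.1 h5
        exact this
      exact absurd h7 (by decide)

end

theorem dep_of_clopen (D : Set Q) (hD : IsClopen D) :
    ∃ n, ∀ x y : Q, (∀ k < n, x k = y k) → (x ∈ D ↔ y ∈ D) := by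
  have h1 : ∀ U : Set Q, IsOpen U → ∀ x ∈ U, ∃ n, PiNat.cylinder x n ⊆ U := by
    intro U hU x hx
    obtain ⟨s, ⟨y, n, rfl⟩, hxs, hsU⟩ :=
      (PiNat.isTopologicalBasis_cylinders (fun _ : ℕ => Bool)).exists_subset_of_mem_open hx hU
    refine ⟨n, ?_⟩
    rw [PiNat.mem_cylinder_iff_eq.1 hxs]
    exact hsU
  have h2 : ∀ x : Q, ∃ n, PiNat.cylinder x n ⊆ D ∨ PiNat.cylinder x n ⊆ Dᶜ := by
    intro x
    by_cases hx : x ∈ D
    · obtain ⟨n, hn⟩ := h1 D hD.isOpen x hx
      exact ⟨n, Or.inl hn⟩
    · obtain ⟨n, hn⟩ := h1 Dᶜ hD.compl.isOpen x hx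
      exact ⟨n, Or.inr hn⟩
  choose N hN using h2
  obtain ⟨t, ht⟩ := isCompact_univ.elim_finite_subcover (fun x : Q => PiNat.cylinder x (N x))
    (fun x => PiNat.isOpen_cylinder _ x (N x))
    (fun x _ => mem_iUnion.2 ⟨x, PiNat.self_mem_cylinder x (N x)⟩)
  refine ⟨t.sup N, fun x y hxy => ?_⟩
  obtain ⟨z, hz⟩ := mem_iUnion.1 (ht (mem_univ x))
  obtain ⟨hzt, hxz⟩ := mem_iUnion.1 hz
  have hyz : y ∈ PiNat.cylinder z (N z) := by
    intro k hk
    rw [← hxy k (lt_of_lt_of_le hk (Finset.le_sup hzt))]
    exact hxz k hk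
  rcases hN z with h | h
  · exact ⟨fun _ => h hyz, fun _ => h hxz⟩
  · exact ⟨fun h3 => absurd h3 (h hxz), fun h3 => absurd h3 (h hyz)⟩

theorem t_TRANS : S_TRANS := by
  classical
  intro typ wd σ hσ D hD hinv
  obtain ⟨n, hn⟩ := dep_of_clopen D hD
  have hc := const typ wd n (fun x => decide (x ∈ D))
    (fun x y h => by simp only [hn x y h])
    (fun i x => by
      have := hinv i x
      rw [hσ] at this
      simp only [this])
  by_cases hne : ∃ x, x ∈ D
  · obtain ⟨x, hx⟩ := hne
    right
    refine eq_univ_of_forall fun y => ?_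
    have := hc y x
    simpa [hx] using this
  · left
    rw [eq_empty_iff_forall_notMem]
    exact fun x hx => hne ⟨x, hx⟩

end Pool.Agent.N250.TC.Trans
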